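import Pool.Agent.Lib.MP_0775d3_lc.Zf.Final

/-! Let `G` be a group of order `n` with a chain of subgroups `G = H 0 ≥ H 1 ≥ ... ≥ H k = 1` of any length, each
of index at most `n ^ h` or normal of prime index in the one before (all solvable groups, symmetric groups, ...).
The matrix of some Fourier transform of `G` is a product of `t` matrices with blocks of size `n ^ δ`, and it has rank
at most `n ^ (1 - γ)` up to `n ^ δ` changes in each row and column; `t` depends only on `δ`. So have the matrices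
`(f (x y⁻¹))`, with `L n ^ δ` changes, if the representations of degree more than `L` are discounted. For class
functions `n ^ δ` changes suffice, and one may add direct factors of `SL₂` type. -/

namespace Pool.Agent.Results.MP_0775d3_lc.FourierMatrices

open MP0775d3.Zf MP0775d3.Ev MP0775d3.Cf MP0775d3.Kron MP0775d3.Sl2

theorem result (δ : ℝ) (hδ : 0 < δ) : ∃ h : ℝ, 0 < h ∧ ∃ t : ℕ, ∃ C : ℝ, ∃ γ : ℝ, 0 < γ ∧
    ∃ n₀ : ℕ, ∀ (G : Type) [Group G] [Fintype G], n₀ ≤ Fintype.card G →
      (HasChain ((Fintype.card G : ℝ) ^ h) G →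
        (∃ (k : ℕ) (d : Fin k → ℕ)
          (Φ : MonoidAlgebra ℂ G ≃ₐ[ℂ] ∀ i, Matrix (Fin (d i)) (Fin (d i)) ℂ),
          Bx (C * Fintype.card G) ((Fintype.card G : ℝ) ^ δ) t (dft Φ) ∧
          ∀ e : G ≃ (Σ i, Fin (d i) × Fin (d i)),
            Dec ((dft Φ).submatrix e id) ((Fintype.card G : ℝ) ^ (1 - γ))
              ((Fintype.card G : ℝ) ^ δ)) ∧
        ∀ L m : ℝ, 1 ≤ L → HighMass G L m → ∀ (F : Type) [RCLike F] (f : G → F),
          Dec (groupMat f) (2 * m + (Fintype.card G : ℝ) ^ (1 - γ))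
            (L * (Fintype.card G : ℝ) ^ δ)) ∧
      (InProd ((Fintype.card G : ℝ) ^ h) G → ∀ (F : Type) [RCLike F] (f : G → F),
        IsClassFun f →
        Dec (groupMat f) ((Fintype.card G : ℝ) ^ (1 - γ)) ((Fintype.card G : ℝ) ^ δ)) :=
  final δ hδ

end Pool.Agent.Results.MP_0775d3_lc.FourierMatrices
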