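import Pool.Agent.Lib.MP_0775d3_lc.Kron.Final

/-! Real polynomials with many more distinct real roots than monomials in a representation as a
linear combination of squares. -/

namespace Pool.Agent.Results.MP_0775d3_lc.SosTau

open Polynomial MP0775d3.Kron

/-- `f` is a linear combination of squares of real polynomials with `s` monomials in total. -/
def IsSOS (f : ℝ[X]) (s : ℕ) : Prop :=
  ∃ (k : ℕ) (c : Fin k → ℝ) (g : Fin k → ℝ[X]),
    f = ∑ i, C (c i) * g i ^ 2 ∧ ∑ i, (g i).support.card = s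

/-- The least total number of monomials of the `g i` over all representations
`f = ∑ i, c i * g i ^ 2` with real numbers `c i` and real polynomials `g i`. -/
noncomputable def supportSum (f : ℝ[X]) : ℕ := sInf {s | IsSOS f s}

/-- The polynomial with coefficient `(1/4) ^ (m ^ 2)` at `X ^ m` for `m ≤ D`. -/
noncomputable def theta (D : ℕ) : ℝ[X] :=
  ∑ m ∈ Finset.range (D + 1), C ((1 / 4 : ℝ) ^ (m ^ 2)) * X ^ m

/-- Representations with at most `s` monomials. -/
def SOS (f : ℝ[X]) (s : ℕ) : Prop :=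
  ∃ (k : ℕ) (c : Fin k → ℝ) (g : Fin k → ℝ[X]),
    f = ∑ i, C (c i) * g i ^ 2 ∧ ∑ i, (g i).support.card ≤ s

theorem SOS.supportSum_le {f : ℝ[X]} {s : ℕ} (h : SOS f s) : supportSum f ≤ s := by
  obtain ⟨k, c, g, h1, h2⟩ := h
  have h3 : IsSOS f (∑ i, (g i).support.card) := ⟨k, c, g, h1, rfl⟩
  exact (Nat.sInf_le (show _ ∈ {s | IsSOS f s} from h3)).trans h2

theorem SOS.mono {f : ℝ[X]} {s t : ℕ} (h : SOS f s) (hst : s ≤ t) : SOS f t := by
  obtain ⟨k, c, g, h1, h2⟩ := h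
  exact ⟨k, c, g, h1, h2.trans hst⟩

theorem SOS.zero : SOS 0 0 := ⟨0, Fin.elim0, Fin.elim0, by simp, by simp⟩

theorem SOS.add {f f' : ℝ[X]} {s s' : ℕ} (h : SOS f s) (h' : SOS f' s') :
    SOS (f + f') (s + s') := by
  obtain ⟨k, c, g, h1, h2⟩ := h
  obtain ⟨k', c', g', h1', h2'⟩ := h'
  refine ⟨k + k', Fin.append c c', Fin.append g g', ?_, ?_⟩
  · rw [Fin.sum_univ_add, h1, h1']
    simp
  · rw [Fin.sum_univ_add]
    simp only [Fin.append_left, Fin.append_right]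
    exact add_le_add h2 h2'

theorem SOS.sum {ι : Type*} (A : Finset ι) (f : ι → ℝ[X]) (s : ι → ℕ)
    (h : ∀ i ∈ A, SOS (f i) (s i)) : SOS (∑ i ∈ A, f i) (∑ i ∈ A, s i) := by
  classical
  induction A using Finset.induction_on with
  | empty => simpa using SOS.zero
  | insert a A ha ih =>
    rw [Finset.sum_insert ha, Finset.sum_insert ha]
    exact (h a (Finset.mem_insert_self a A)).add
      (ih fun i hi => h i (Finset.mem_insert_of_mem hi))

theorem SOS.mul (u v : ℝ[X]) : SOS (u * v) (2 * (u.support.card + v.support.card)) := by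
  refine ⟨2, ![1 / 4, -(1 / 4)], ![u + v, u - v], ?_, ?_⟩
  · rw [Fin.sum_univ_two]
    simp only [Matrix.cons_val_zero, Matrix.cons_val_one]
    have h : (C (1 / 4 : ℝ)) * 4 = 1 := by
      rw [show (4 : ℝ[X]) = C (4 : ℝ) from (map_ofNat C 4).symm, ← C_mul]
      norm_num
    rw [C_neg]
    calc u * v = (C (1 / 4 : ℝ) * 4) * (u * v) := by rw [h, one_mul]
      _ = _ := by ring
  · rw [Fin.sum_univ_two]
    simp only [Matrix.cons_val_zero, Matrix.cons_val_one]
    have h1 : (u + v).support.card ≤ u.support.card + v.support.card :=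
      (Finset.card_le_card support_add).trans (Finset.card_union_le _ _)
    have h2 : (u - v).support.card ≤ u.support.card + v.support.card := by
      rw [sub_eq_add_neg]
      refine (Finset.card_le_card support_add).trans ((Finset.card_union_le _ _).trans ?_)
      rw [support_neg]
    omega

theorem SOS.monomial (a : ℝ) (m : ℕ) : SOS (C a * X ^ m) 4 := by
  have h := SOS.mul (C a * X ^ m) 1
  rw [mul_one] at h
  refine h.mono ?_
  have h1 : (C a * X ^ m : ℝ[X]).support.card ≤ 1 := card_support_C_mul_X_pow_le_one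
  have h2 : (1 : ℝ[X]).support.card ≤ 1 := by
    have := card_support_C_mul_X_pow_le_one (c := (1 : ℝ)) (n := 0)
    simpa using this
  omega

theorem exists_isSOS (f : ℝ[X]) : IsSOS f (supportSum f) := by
  have h : {s | IsSOS f s}.Nonempty := by
    have h1 := SOS.mul f 1
    rw [mul_one] at h1
    obtain ⟨k, c, g, h2, _⟩ := h1
    exact ⟨_, k, c, g, h2, rfl⟩
  exact Nat.sInf_mem h

/-- A matrix of rank at most `r` is a sum of `r` products of a column and a row. -/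
theorem exists_factor {n : ℕ} (R : Matrix (Fin n) (Fin n) ℝ) :
    ∃ (u v : Fin R.rank → Fin n → ℝ), ∀ i j, R i j = ∑ k, u k i * v k j := by
  let W := LinearMap.range R.mulVecLin
  let b : Module.Basis (Fin R.rank) ℝ W := Module.finBasis ℝ W
  have hmem : ∀ j, R.mulVecLin (Pi.single j 1) ∈ W := fun j => ⟨_, rfl⟩
  refine ⟨fun k i => (b k : Fin n → ℝ) i, fun k j => b.repr ⟨_, hmem j⟩ k, ?_⟩
  intro i j
  have h1 := congrArg (fun w : W => (w : Fin n → ℝ) i) (b.sum_repr ⟨_, hmem j⟩)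
  have h2 : R.mulVecLin (Pi.single j 1) i = R i j := by
    rw [Matrix.mulVecLin_apply, Matrix.mulVec_single_one]
    rfl
  rw [← h2]
  refine h1.symm.trans ?_
  rw [AddSubmonoidClass.coe_finsetSum, Finset.sum_apply]
  refine Finset.sum_congr rfl fun k _ => ?_
  rw [Submodule.coe_smul, Pi.smul_apply, smul_eq_mul, mul_comm]

theorem card_sum_le {n : ℕ} (a : Fin n → ℝ) (e : Fin n → ℕ) :
    (∑ i : Fin n, C (a i) * X ^ (e i) : ℝ[X]).support.card ≤ n := by
  have h : (∑ i : Fin n, C (a i) * X ^ (e i) : ℝ[X]).support ⊆ Finset.univ.image e := by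
    intro m hm
    rw [mem_support_iff, finsetSum_coeff] at hm
    obtain ⟨i, _, hi⟩ := Finset.exists_ne_zero_of_sum_ne_zero hm
    rw [coeff_C_mul, coeff_X_pow] at hi
    rw [Finset.mem_image]
    refine ⟨i, Finset.mem_univ i, ?_⟩
    by_contra h
    rw [if_neg (fun h' => h h'.symm), mul_zero] at hi
    exact hi rfl
  refine (Finset.card_le_card h).trans (Finset.card_image_le.trans ?_)
  simp

theorem sos_of_rank {n : ℕ} (R : Matrix (Fin n) (Fin n) ℝ) :
    SOS (∑ i : Fin n, ∑ j : Fin n, C (R i j) * X ^ ((i : ℕ) + n * j)) (R.rank * (4 * n)) := by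
  obtain ⟨u, v, h⟩ := exists_factor R
  have h1 : (∑ i : Fin n, ∑ j : Fin n, C (R i j) * X ^ ((i : ℕ) + n * j) : ℝ[X]) =
      ∑ k : Fin R.rank, (∑ i : Fin n, C (u k i) * X ^ (i : ℕ)) *
        (∑ j : Fin n, C (v k j) * X ^ (n * (j : ℕ))) := by
    have e : ∀ i j : Fin n, (C (R i j) * X ^ ((i : ℕ) + n * j) : ℝ[X]) =
        ∑ k : Fin R.rank, (C (u k i) * X ^ (i : ℕ)) * (C (v k j) * X ^ (n * (j : ℕ))) := by
      intro i j
      rw [h i j, map_sum, Finset.sum_mul]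
      refine Finset.sum_congr rfl fun k _ => ?_
      rw [C_mul, pow_add]
      ring
    simp_rw [Finset.sum_mul_sum, e]
    rw [Finset.sum_comm (s := (Finset.univ : Finset (Fin R.rank)))]
    refine Finset.sum_congr rfl fun i _ => ?_
    rw [Finset.sum_comm]
  rw [h1]
  have h2 := SOS.sum (Finset.univ : Finset (Fin R.rank)) (fun k =>
    (∑ i : Fin n, C (u k i) * X ^ (i : ℕ)) * (∑ j : Fin n, C (v k j) * X ^ (n * (j : ℕ))))
    (fun _ => 4 * n) (fun k _ => (SOS.mul _ _).mono (by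
      have e1 := card_sum_le (u k) (fun i => (i : ℕ))
      have e2 := card_sum_le (v k) (fun j => n * (j : ℕ))
      omega))
  simpa using h2

theorem sos_of_sparse {n : ℕ} (S : Matrix (Fin n) (Fin n) ℝ) {s : ℝ} (hS : Sparse S s) :
    ∃ t : ℕ, (t : ℝ) ≤ 4 * n * s ∧
      SOS (∑ i : Fin n, ∑ j : Fin n, C (S i j) * X ^ ((i : ℕ) + n * j)) t := by
  classical
  refine ⟨∑ i : Fin n, ∑ j : Fin n, (if S i j ≠ 0 then 4 else 0), ?_, ?_⟩
  · push_cast
    calc (∑ i : Fin n, ∑ j : Fin n, (if S i j ≠ 0 then (4 : ℝ) else 0))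
        ≤ ∑ _i : Fin n, 4 * s := by
          refine Finset.sum_le_sum fun i _ => ?_
          rw [← Finset.sum_filter, Finset.sum_const, nsmul_eq_mul]
          have h1 := hS.1 i
          have h2 : ((Finset.univ.filter (fun j => S i j ≠ 0)).card : ℝ) =
              (({j | S i j ≠ 0} : Set (Fin n)).ncard : ℝ) := by
            congr 1
            rw [← Set.ncard_coe_finset]
            congr 1
            ext y
            simp
          rw [h2]
          linarith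
      _ = 4 * n * s := by
          rw [Finset.sum_const, nsmul_eq_mul, Finset.card_univ, Fintype.card_fin]
          ring
  · refine SOS.sum _ _ _ fun i _ => SOS.sum _ _ _ fun j _ => ?_
    by_cases h : S i j = 0
    · rw [h]
      simpa using SOS.zero
    · rw [if_pos h]
      exact SOS.monomial _ _

theorem dec_diag {n : ℕ} (T : Matrix (Fin n) (Fin n) ℝ) (d e : Fin n → ℝ) {r s : ℝ} (hs : 0 ≤ s)
    (h : Dec T r s) : Dec (Matrix.of fun i j => d i * T i j * e j) r s := by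
  have hd : ∀ d : Fin n → ℝ, IsMono (Matrix.diagonal d) := by
    intro d
    constructor
    · intro a b c hb hc
      have h1 : a = b := by
        by_contra h
        exact hb (Matrix.diagonal_apply_ne _ h)
      have h2 : a = c := by
        by_contra h
        exact hc (Matrix.diagonal_apply_ne _ h)
      exact h1.symm.trans h2
    · intro a b c hb hc
      have h1 : b = a := by
        by_contra h
        exact hb (Matrix.diagonal_apply_ne _ h)
      have h2 : c = a := by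
        by_contra h
        exact hc (Matrix.diagonal_apply_ne _ h)
      exact h1.trans h2.symm
  have h1 := (((hd d).dec).mul zero_le_one hs h).mul (by positivity) zero_le_one ((hd e).dec)
  have h2 : (Matrix.of fun i j => d i * T i j * e j) =
      Matrix.diagonal d * T * Matrix.diagonal e := by
    ext i j
    rw [Matrix.mul_diagonal, Matrix.diagonal_mul]
    rfl
  rw [h2]
  exact h1.mono (by linarith) (by linarith)

/-- The coefficient matrix of `theta` is not rigid. -/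
theorem coeff_dec (δ : ℝ) (hδ : 0 < δ) : ∃ γ : ℝ, 0 < γ ∧ ∃ n₀ : ℕ, ∀ n : ℕ, n₀ ≤ n →
    Dec (Matrix.of fun i j : Fin n => (1 / 4 : ℝ) ^ (((i : ℕ) + n * j) ^ 2))
      ((n : ℝ) ^ (1 - γ)) ((n : ℝ) ^ δ) := by
  obtain ⟨γ, hγ, n₀, h⟩ := partA.{0, 0} δ hδ
  obtain ⟨n₁, hn₁⟩ : ∃ n₁ : ℕ, ∀ n : ℕ, n₁ ≤ n → 2 * (n : ℝ) ≤ (n : ℝ) ^ (1 + γ) := by
    have h1 : Filter.Tendsto (fun n : ℕ => (n : ℝ) ^ γ) Filter.atTop Filter.atTop :=
      (tendsto_rpow_atTop hγ).comp tendsto_natCast_atTop_atTop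
    obtain ⟨n₁, hn₁⟩ := Filter.eventually_atTop.1 (h1.eventually_ge_atTop 2)
    refine ⟨max n₁ 1, fun n hn => ?_⟩
    have hn0 : (0 : ℝ) < n := by
      have : 1 ≤ n := (le_max_right _ _).trans hn
      exact_mod_cast this
    rw [Real.rpow_add hn0, Real.rpow_one, mul_comm]
    exact mul_le_mul_of_nonneg_left (hn₁ n ((le_max_left _ _).trans hn)) hn0.le
  refine ⟨γ, hγ, max (max n₀ n₁) 1, ?_⟩
  intro n hn
  have hn₀ : n₀ ≤ n := ((le_max_left _ _).trans (le_max_left _ _)).trans hn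
  have hn₁' : n₁ ≤ n := ((le_max_right _ _).trans (le_max_left _ _)).trans hn
  have hn1 : 1 ≤ n := (le_max_right _ _).trans hn
  let t : (Fin 1 → ℤ) → ℝ := fun v => (1 / 4 : ℝ) ^ ((n : ℤ) * (v 0 + (n - 1)) ^ 2)
  let a : Fin n → Fin 1 → ℤ := fun i _ => (i : ℕ)
  let b : Fin n → Fin 1 → ℤ := fun j _ => (n : ℤ) - 1 - (j : ℕ)
  have hT := partB δ γ hδ n hn1 ℝ (fun A X _ _ _ _ => h n hn₀ ℝ A X) 1 (fun _ => n)
    (by simpa using hn₁ n hn₁') a b
    (by
      intro i i' hii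
      have := congrFun hii 0
      simp only [a] at this
      exact Fin.ext (by exact_mod_cast this))
    (by
      intro i i' hii
      have := congrFun hii 0
      simp only [b] at this
      refine Fin.ext ?_
      omega)
    (by
      intro i l
      simp only [a]
      have := i.2
      omega)
    (by
      intro i l
      simp only [b]
      have := i.2
      omega) t
  have h2 := dec_diag _ (fun i : Fin n => (1 / 4 : ℝ) ^ (((i : ℕ) : ℤ) ^ 2 - n * ((i : ℕ) : ℤ) ^ 2))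
    (fun j : Fin n => (1 / 4 : ℝ) ^ ((n : ℤ) ^ 2 * ((j : ℕ) : ℤ) ^ 2 - n * ((j : ℕ) : ℤ) ^ 2))
    (by positivity) hT
  convert h2 using 1
  ext i j
  simp only [Matrix.of_apply, t, a, b, Pi.sub_apply]
  rw [← zpow_add₀ (by norm_num), ← zpow_add₀ (by norm_num), ← zpow_natCast]
  congr 1
  push_cast
  ring

theorem eval_theta (D : ℕ) (x : ℝ) :
    (theta D).eval x = ∑ m ∈ Finset.range (D + 1), (1 / 4 : ℝ) ^ (m ^ 2) * x ^ m := by
  rw [theta, eval_finsetSum]
  refine Finset.sum_congr rfl fun m _ => ?_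
  rw [eval_mul, eval_C, eval_pow, eval_X]

theorem coeff_theta (D m : ℕ) :
    (theta D).coeff m = if m ≤ D then (1 / 4 : ℝ) ^ (m ^ 2) else 0 := by
  rw [theta, finsetSum_coeff]
  simp only [coeff_C_mul, coeff_X_pow, mul_ite, mul_one, mul_zero]
  rw [Finset.sum_ite_eq]
  simp only [Finset.mem_range, Nat.lt_succ_iff]

theorem natDegree_theta (D : ℕ) : (theta D).natDegree = D := by
  refine le_antisymm ?_ ?_
  · rw [natDegree_le_iff_coeff_eq_zero]
    intro m hm
    rw [coeff_theta, if_neg (by omega)]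
  · refine le_natDegree_of_ne_zero ?_
    rw [coeff_theta, if_pos le_rfl]
    positivity

theorem theta_ne_zero (D : ℕ) : theta D ≠ 0 := by
  intro h
  have h1 := coeff_theta D 0
  rw [h, if_pos (Nat.zero_le D)] at h1
  simp at h1

theorem low_sum (m : ℕ) : ∑ k ∈ Finset.range m, (1 / 4 : ℝ) ^ (m - k) = (1 - (1 / 4) ^ m) / 3 := by
  induction m with
  | zero => simp
  | succ m ih =>
    rw [Finset.sum_range_succ]
    have h : ∑ k ∈ Finset.range m, (1 / 4 : ℝ) ^ (m + 1 - k) =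
        (1 / 4) * ∑ k ∈ Finset.range m, (1 / 4 : ℝ) ^ (m - k) := by
      rw [Finset.mul_sum]
      refine Finset.sum_congr rfl fun k hk => ?_
      have hk' := Finset.mem_range.1 hk
      rw [show m + 1 - k = (m - k) + 1 by omega, pow_succ]
      ring
    rw [h, ih, show m + 1 - m = 1 by omega, pow_succ]
    ring

theorem high_sum (l : ℕ) : ∑ k ∈ Finset.range l, (1 / 4 : ℝ) ^ (k + 1) = (1 - (1 / 4) ^ l) / 3 := by
  induction l with
  | zero => simp
  | succ l ih =>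
    rw [Finset.sum_range_succ, ih, pow_succ]
    ring

theorem term_le (k m : ℕ) (e : ℕ) (he : ((k : ℤ) - m) = e ∨ ((k : ℤ) - m) = -e) :
    (1 / 4 : ℝ) ^ (((k : ℤ) - m) ^ 2) ≤ (1 / 4) ^ e := by
  have h : ((k : ℤ) - m) ^ 2 = ((e ^ 2 : ℕ) : ℤ) := by
    rcases he with h | h <;> rw [h] <;> push_cast <;> ring
  rw [h, zpow_natCast]
  exact pow_le_pow_of_le_one (by norm_num) (by norm_num) (Nat.le_self_pow two_ne_zero e)

/-- The sum of the terms other than the dominating one. -/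
theorem tail_lt (D m : ℕ) (hm : m ≤ D) :
    ∑ k ∈ (Finset.range (D + 1)).erase m, (1 / 4 : ℝ) ^ (((k : ℤ) - m) ^ 2) < 1 := by
  have h1 : (Finset.range (D + 1)).erase m = Finset.range m ∪ Finset.Ico (m + 1) (D + 1) := by
    ext k
    simp only [Finset.mem_erase, Finset.mem_range, Finset.mem_union, Finset.mem_Ico]
    omega
  have h2 : Disjoint (Finset.range m) (Finset.Ico (m + 1) (D + 1)) := by
    rw [Finset.disjoint_left]
    intro k hk hk'
    rw [Finset.mem_range] at hk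
    rw [Finset.mem_Ico] at hk'
    omega
  rw [h1, Finset.sum_union h2]
  have h3 : ∑ k ∈ Finset.range m, (1 / 4 : ℝ) ^ (((k : ℤ) - m) ^ 2) ≤ 1 / 3 := by
    calc ∑ k ∈ Finset.range m, (1 / 4 : ℝ) ^ (((k : ℤ) - m) ^ 2)
        ≤ ∑ k ∈ Finset.range m, (1 / 4 : ℝ) ^ (m - k) := by
          refine Finset.sum_le_sum fun k hk => term_le k m (m - k) (Or.inr ?_)
          have := Finset.mem_range.1 hk
          omega
      _ = (1 - (1 / 4) ^ m) / 3 := low_sum m
      _ ≤ 1 / 3 := by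
          have : (0 : ℝ) ≤ (1 / 4) ^ m := by positivity
          linarith
  have h4 : ∑ k ∈ Finset.Ico (m + 1) (D + 1), (1 / 4 : ℝ) ^ (((k : ℤ) - m) ^ 2) ≤ 1 / 3 := by
    rw [Finset.sum_Ico_eq_sum_range]
    calc ∑ k ∈ Finset.range (D + 1 - (m + 1)), (1 / 4 : ℝ) ^ ((((m + 1 + k : ℕ) : ℤ) - m) ^ 2)
        ≤ ∑ k ∈ Finset.range (D + 1 - (m + 1)), (1 / 4 : ℝ) ^ (k + 1) := by
          refine Finset.sum_le_sum fun k _ => term_le (m + 1 + k) m (k + 1) (Or.inl ?_)
          push_cast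
          ring
      _ = (1 - (1 / 4) ^ (D + 1 - (m + 1))) / 3 := high_sum _
      _ ≤ 1 / 3 := by
          have : (0 : ℝ) ≤ (1 / 4) ^ (D + 1 - (m + 1)) := by positivity
          linarith
  linarith

theorem sign_theta (D m : ℕ) (hm : m ≤ D) :
    0 < (-1) ^ m * (theta D).eval (-(16 : ℝ) ^ m) := by
  have h1 : ∀ k : ℕ, (1 / 4 : ℝ) ^ (k ^ 2) * (-(16 : ℝ) ^ m) ^ k =
      (-1) ^ k * ((4 : ℝ) ^ (m ^ 2) * (1 / 4 : ℝ) ^ (((k : ℤ) - m) ^ 2)) := by
    intro k
    rw [neg_pow, ← pow_mul, show (16 : ℝ) = 4 ^ 2 by norm_num, ← pow_mul]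
    have e : (1 / 4 : ℝ) ^ (k ^ 2) * (4 : ℝ) ^ (2 * (m * k)) =
        (4 : ℝ) ^ (m ^ 2) * (1 / 4 : ℝ) ^ (((k : ℤ) - m) ^ 2) := by
      rw [one_div, inv_zpow', inv_pow, ← zpow_natCast, ← zpow_natCast, ← zpow_natCast,
        ← zpow_neg, ← zpow_add₀ (by norm_num), ← zpow_add₀ (by norm_num)]
      congr 1
      push_cast
      ring
    rw [← e]
    ring
  rw [eval_theta, ← Finset.add_sum_erase _ _ (Finset.mem_range.2 (Nat.lt_succ_of_le hm))]
  simp_rw [h1]
  have h4 : (0 : ℝ) < 4 ^ (m ^ 2) := by positivity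
  have h2 : |∑ k ∈ (Finset.range (D + 1)).erase m,
      (-1) ^ k * ((4 : ℝ) ^ (m ^ 2) * (1 / 4 : ℝ) ^ (((k : ℤ) - m) ^ 2))| < 4 ^ (m ^ 2) := by
    calc |∑ k ∈ (Finset.range (D + 1)).erase m,
        (-1) ^ k * ((4 : ℝ) ^ (m ^ 2) * (1 / 4 : ℝ) ^ (((k : ℤ) - m) ^ 2))|
        ≤ ∑ k ∈ (Finset.range (D + 1)).erase m,
          |(-1) ^ k * ((4 : ℝ) ^ (m ^ 2) * (1 / 4 : ℝ) ^ (((k : ℤ) - m) ^ 2))| :=
          Finset.abs_sum_le_sum_abs _ _
      _ = ∑ k ∈ (Finset.range (D + 1)).erase m,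
          (4 : ℝ) ^ (m ^ 2) * (1 / 4 : ℝ) ^ (((k : ℤ) - m) ^ 2) := by
          refine Finset.sum_congr rfl fun k _ => ?_
          rw [abs_mul, abs_pow, abs_neg, abs_one, one_pow, one_mul, abs_of_nonneg (by positivity)]
      _ = (4 : ℝ) ^ (m ^ 2) * ∑ k ∈ (Finset.range (D + 1)).erase m,
          (1 / 4 : ℝ) ^ (((k : ℤ) - m) ^ 2) := by rw [Finset.mul_sum]
      _ < (4 : ℝ) ^ (m ^ 2) * 1 := mul_lt_mul_of_pos_left (tail_lt D m hm) h4
      _ = 4 ^ (m ^ 2) := mul_one _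
  rw [sub_self]
  simp only [ne_eq, OfNat.ofNat_ne_zero, not_false_eq_true, zero_pow, zpow_zero, mul_one]
  rw [mul_add, ← mul_assoc, ← mul_pow]
  norm_num only
  rw [one_pow, one_mul]
  have h3 : |(-1) ^ m * ∑ k ∈ (Finset.range (D + 1)).erase m,
      (-1) ^ k * ((4 : ℝ) ^ (m ^ 2) * (1 / 4 : ℝ) ^ (((k : ℤ) - m) ^ 2))| < 4 ^ (m ^ 2) := by
    rw [abs_mul, abs_pow, abs_neg, abs_one, one_pow, one_mul]
    exact h2
  have h5 := (abs_lt.1 h3).1
  linarith

theorem exists_root (D m : ℕ) (hm : m < D) :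
    ∃ x : ℝ, -(16 : ℝ) ^ (m + 1) < x ∧ x < -(16 : ℝ) ^ m ∧ (theta D).eval x = 0 := by
  have h1 := sign_theta D m hm.le
  have h2 := sign_theta D (m + 1) hm
  have hlt : -(16 : ℝ) ^ (m + 1) ≤ -(16 : ℝ) ^ m := by
    rw [neg_le_neg_iff]
    exact pow_le_pow_right₀ (by norm_num) (Nat.le_succ m)
  have hc : ContinuousOn (fun x => (-1) ^ m * (theta D).eval x)
      (Set.Icc (-(16 : ℝ) ^ (m + 1)) (-(16 : ℝ) ^ m)) :=
    (continuous_const.mul (theta D).continuous).continuousOn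
  have h3 : (-1) ^ m * (theta D).eval (-(16 : ℝ) ^ (m + 1)) < 0 := by
    rw [pow_succ] at h2
    linarith
  have h4 := intermediate_value_Ioo hlt hc
  obtain ⟨x, hx, hx0⟩ := h4 ⟨h3, h1⟩
  refine ⟨x, hx.1, hx.2, ?_⟩
  simp only at hx0
  rcases mul_eq_zero.1 hx0 with h | h
  · exact absurd h (pow_ne_zero _ (by norm_num))
  · exact h

theorem card_roots_theta (D : ℕ) : (theta D).roots.toFinset.card = D := by
  refine le_antisymm ?_ ?_
  · calc (theta D).roots.toFinset.card ≤ (theta D).roots.card := Multiset.toFinset_card_le _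
      _ ≤ (theta D).natDegree := card_roots' _
      _ = D := natDegree_theta D
  · choose r h1 h2 h3 using fun m : Fin D => exists_root D m m.2
    have hinj : Function.Injective r := by
      intro a b hab
      by_contra hne
      rcases lt_or_gt_of_ne (fun h : (a : ℕ) = b => hne (Fin.ext h)) with h | h
      · have e1 := h1 a
        have e2 := h2 b
        have e3 : (16 : ℝ) ^ ((a : ℕ) + 1) ≤ 16 ^ (b : ℕ) :=
          pow_le_pow_right₀ (by norm_num) h
        rw [hab] at e1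
        linarith
      · have e1 := h1 b
        have e2 := h2 a
        have e3 : (16 : ℝ) ^ ((b : ℕ) + 1) ≤ 16 ^ (a : ℕ) :=
          pow_le_pow_right₀ (by norm_num) h
        rw [hab] at e2
        linarith
    calc D = (Finset.univ.image r).card := by
          rw [Finset.card_image_of_injective _ hinj, Finset.card_univ, Fintype.card_fin]
      _ ≤ (theta D).roots.toFinset.card := by
          refine Finset.card_le_card fun x hx => ?_
          obtain ⟨m, _, rfl⟩ := Finset.mem_image.1 hx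
          rw [Multiset.mem_toFinset, mem_roots (theta_ne_zero D)]
          exact h3 m

theorem sos_theta_range (n : ℕ) : (∑ m ∈ Finset.range (n * n),
      C ((1 / 4 : ℝ) ^ (m ^ 2)) * X ^ m : ℝ[X]) =
    ∑ i : Fin n, ∑ j : Fin n, C ((1 / 4 : ℝ) ^ (((i : ℕ) + n * j) ^ 2)) * X ^ ((i : ℕ) + n * j) := by
  rw [Finset.sum_comm, ← Fin.sum_univ_eq_sum_range (fun m => C ((1 / 4 : ℝ) ^ (m ^ 2)) * X ^ m),
    ← Fintype.sum_prod_type', ← (finProdFinEquiv (m := n) (n := n)).sum_comp]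
  rfl

/-- A bound for all large degrees. -/
theorem supportSum_theta_le : ∃ γ : ℝ, 0 < γ ∧ γ ≤ 1 / 2 ∧ ∃ n₀ : ℕ, ∀ n : ℕ, n₀ ≤ n → ∀ D : ℕ,
    n * n ≤ D + 1 → D + 1 ≤ n * n + 2 * n → (supportSum (theta D) : ℝ) ≤ 16 * (n : ℝ) ^ (2 - γ) := by
  obtain ⟨γ, hγ, n₀, h⟩ := coeff_dec (1 / 2) (by norm_num)
  refine ⟨min γ (1 / 2), lt_min hγ (by norm_num), min_le_right _ _, max n₀ 1, ?_⟩
  intro n hn D hD1 hD2
  have hn₀ : n₀ ≤ n := (le_max_left _ _).trans hn
  have hn1 : 1 ≤ n := (le_max_right _ _).trans hn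
  have hn1' : (1 : ℝ) ≤ n := by exact_mod_cast hn1
  have hn0 : (0 : ℝ) < n := by linarith
  obtain ⟨R, S, hRS, hR, hS⟩ := h n hn₀
  have e1 : theta D = (∑ i : Fin n, ∑ j : Fin n, C (R i j) * X ^ ((i : ℕ) + n * j)) +
      (∑ i : Fin n, ∑ j : Fin n, C (S i j) * X ^ ((i : ℕ) + n * j)) +
      ∑ m ∈ Finset.Ico (n * n) (D + 1), C ((1 / 4 : ℝ) ^ (m ^ 2)) * X ^ m := by
    have e2 : (∑ i : Fin n, ∑ j : Fin n, C (R i j) * X ^ ((i : ℕ) + n * j) : ℝ[X]) +
        (∑ i : Fin n, ∑ j : Fin n, C (S i j) * X ^ ((i : ℕ) + n * j)) =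
        ∑ m ∈ Finset.range (n * n), C ((1 / 4 : ℝ) ^ (m ^ 2)) * X ^ m := by
      rw [sos_theta_range, ← Finset.sum_add_distrib]
      refine Finset.sum_congr rfl fun i _ => ?_
      rw [← Finset.sum_add_distrib]
      refine Finset.sum_congr rfl fun j _ => ?_
      have e3 := congrFun (congrFun hRS i) j
      simp only [Matrix.of_apply, Matrix.add_apply] at e3
      rw [e3, C_add, add_mul]
    rw [e2, theta, Finset.sum_range_add_sum_Ico _ hD1]
  obtain ⟨t, ht, hSt⟩ := sos_of_sparse S hS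
  have h3 : SOS (∑ m ∈ Finset.Ico (n * n) (D + 1), C ((1 / 4 : ℝ) ^ (m ^ 2)) * X ^ m : ℝ[X])
      (8 * n) := by
    have := SOS.sum (Finset.Ico (n * n) (D + 1)) (fun m => C ((1 / 4 : ℝ) ^ (m ^ 2)) * X ^ m)
      (fun _ => 4) (fun m _ => SOS.monomial _ _)
    refine this.mono ?_
    rw [Finset.sum_const, Nat.card_Ico, smul_eq_mul]
    omega
  have h4 := (((sos_of_rank R).add hSt).add h3).supportSum_le
  rw [← e1] at h4
  have h5 : (supportSum (theta D) : ℝ) ≤ (R.rank : ℝ) * (4 * n) + t + 8 * n := by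
    exact_mod_cast h4
  set g := min γ (1 / 2) with hg
  have p1 : (n : ℝ) ^ (1 - γ) * n ≤ (n : ℝ) ^ (2 - g) := by
    calc (n : ℝ) ^ (1 - γ) * n = (n : ℝ) ^ (1 - γ) * (n : ℝ) ^ (1 : ℝ) := by rw [Real.rpow_one]
      _ = (n : ℝ) ^ (1 - γ + 1) := (Real.rpow_add hn0 _ _).symm
      _ ≤ (n : ℝ) ^ (2 - g) := Real.rpow_le_rpow_of_exponent_le hn1' (by
          have := min_le_left γ (1 / 2)
          linarith)
  have p2 : (n : ℝ) * (n : ℝ) ^ (1 / 2 : ℝ) ≤ (n : ℝ) ^ (2 - g) := by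
    calc (n : ℝ) * (n : ℝ) ^ (1 / 2 : ℝ) = (n : ℝ) ^ (1 : ℝ) * (n : ℝ) ^ (1 / 2 : ℝ) := by
          rw [Real.rpow_one]
      _ = (n : ℝ) ^ (1 + 1 / 2 : ℝ) := (Real.rpow_add hn0 _ _).symm
      _ ≤ (n : ℝ) ^ (2 - g) := Real.rpow_le_rpow_of_exponent_le hn1' (by
          have := min_le_right γ (1 / 2)
          linarith)
  have p3 : (n : ℝ) ≤ (n : ℝ) ^ (2 - g) := by
    calc (n : ℝ) = (n : ℝ) ^ (1 : ℝ) := (Real.rpow_one _).symm
      _ ≤ (n : ℝ) ^ (2 - g) := Real.rpow_le_rpow_of_exponent_le hn1' (by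
          have := min_le_right γ (1 / 2)
          linarith)
  have p4 : (R.rank : ℝ) * (4 * n) ≤ 4 * ((n : ℝ) ^ (1 - γ) * n) := by
    have := mul_le_mul_of_nonneg_right hR hn0.le
    linarith
  have p5 : (t : ℝ) ≤ 4 * ((n : ℝ) * (n : ℝ) ^ (1 / 2 : ℝ)) := by
    linarith
  linarith

/-- For every large `D` the polynomial `theta D` of degree `D` has `D` distinct real roots and is a
linear combination of squares with at most `D ^ (1 - c)` monomials; hence no bound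
`C * S(f) ^ (1 + c)` for the number of real roots holds. -/
theorem result : ∃ c : ℝ, 0 < c ∧
    (∃ D₀ : ℕ, ∀ D : ℕ, D₀ ≤ D → (theta D).natDegree = D ∧ (theta D).roots.toFinset.card = D ∧
      (supportSum (theta D) : ℝ) ≤ (D : ℝ) ^ (1 - c)) ∧
    ∀ B : ℝ, ∃ f : ℝ[X], f ≠ 0 ∧
      B * (supportSum f : ℝ) ^ (1 + c) < (f.roots.toFinset.card : ℝ) := by
  obtain ⟨γ, hγ, hγ2, n₀, h⟩ := supportSum_theta_le
  have hc : 0 < γ / 4 := by linarith
  obtain ⟨D₁, hD₁⟩ : ∃ D₁ : ℕ, ∀ D : ℕ, D₁ ≤ D → 32 ≤ (D : ℝ) ^ (γ / 4) := by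
    have h1 : Filter.Tendsto (fun n : ℕ => (n : ℝ) ^ (γ / 4)) Filter.atTop Filter.atTop :=
      (tendsto_rpow_atTop hc).comp tendsto_natCast_atTop_atTop
    exact Filter.eventually_atTop.1 (h1.eventually_ge_atTop 32)
  have key : ∀ D : ℕ, max (max D₁ (n₀ * n₀)) 1 ≤ D →
      (supportSum (theta D) : ℝ) ≤ (D : ℝ) ^ (1 - γ / 4) := by
    intro D hD
    have hD1 : D₁ ≤ D := ((le_max_left _ _).trans (le_max_left _ _)).trans hD
    have hD2 : n₀ * n₀ ≤ D := ((le_max_right _ _).trans (le_max_left _ _)).trans hD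
    have hD3 : 1 ≤ D := (le_max_right _ _).trans hD
    have hDpos : (0 : ℝ) < D := by exact_mod_cast hD3
    have hDone : (1 : ℝ) ≤ D := by exact_mod_cast hD3
    have hn₀ : n₀ ≤ Nat.sqrt (D + 1) := by
      rw [Nat.le_sqrt]
      omega
    have hs1 : Nat.sqrt (D + 1) * Nat.sqrt (D + 1) ≤ D + 1 := Nat.sqrt_le (D + 1)
    have hs2 : D + 1 ≤ Nat.sqrt (D + 1) * Nat.sqrt (D + 1) + 2 * Nat.sqrt (D + 1) := by
      have := Nat.sqrt_le_add (D + 1)
      omega
    have h1 := h (Nat.sqrt (D + 1)) hn₀ D hs1 hs2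
    set n := Nat.sqrt (D + 1) with hn
    have hn2 : (n : ℝ) ^ (2 : ℝ) ≤ 2 * D := by
      have : n * n ≤ 2 * D := by omega
      have h2 : ((n * n : ℕ) : ℝ) ≤ ((2 * D : ℕ) : ℝ) := by exact_mod_cast this
      push_cast at h2
      rw [Real.rpow_two]
      nlinarith
    have h3 : (n : ℝ) ^ (2 - γ) ≤ 2 * (D : ℝ) ^ (1 - γ / 2) := by
      calc (n : ℝ) ^ (2 - γ) = ((n : ℝ) ^ (2 : ℝ)) ^ (1 - γ / 2) := by
            rw [← Real.rpow_mul (Nat.cast_nonneg n)]
            congr 1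
            ring
        _ ≤ (2 * (D : ℝ)) ^ (1 - γ / 2) :=
            Real.rpow_le_rpow (by positivity) hn2 (by linarith)
        _ = (2 : ℝ) ^ (1 - γ / 2) * (D : ℝ) ^ (1 - γ / 2) :=
            Real.mul_rpow (by norm_num) hDpos.le
        _ ≤ 2 * (D : ℝ) ^ (1 - γ / 2) := by
            refine mul_le_mul_of_nonneg_right ?_ (by positivity)
            calc (2 : ℝ) ^ (1 - γ / 2) ≤ (2 : ℝ) ^ (1 : ℝ) :=
                  Real.rpow_le_rpow_of_exponent_le (by norm_num) (by linarith)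
              _ = 2 := Real.rpow_one 2
    calc (supportSum (theta D) : ℝ) ≤ 16 * (n : ℝ) ^ (2 - γ) := h1
      _ ≤ 32 * (D : ℝ) ^ (1 - γ / 2) := by linarith
      _ ≤ (D : ℝ) ^ (γ / 4) * (D : ℝ) ^ (1 - γ / 2) :=
          mul_le_mul_of_nonneg_right (hD₁ D hD1) (by positivity)
      _ = (D : ℝ) ^ (1 - γ / 4) := by
          rw [← Real.rpow_add hDpos]
          congr 1
          ring
  refine ⟨γ / 4, hc, ⟨max (max D₁ (n₀ * n₀)) 1, fun D hD =>
    ⟨natDegree_theta D, card_roots_theta D, key D hD⟩⟩, ?_⟩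
  intro B
  obtain ⟨D₂, hD₂⟩ : ∃ D₂ : ℕ, ∀ D : ℕ, D₂ ≤ D → |B| + 1 ≤ (D : ℝ) ^ ((γ / 4) ^ 2) := by
    have h1 : Filter.Tendsto (fun n : ℕ => (n : ℝ) ^ ((γ / 4) ^ 2)) Filter.atTop Filter.atTop :=
      (tendsto_rpow_atTop (by positivity)).comp tendsto_natCast_atTop_atTop
    exact Filter.eventually_atTop.1 (h1.eventually_ge_atTop (|B| + 1))
  set D := max D₂ (max (max D₁ (n₀ * n₀)) 1) with hD
  have hDpos : (0 : ℝ) < D := by
    have : 1 ≤ D := (le_max_right _ _).trans (le_max_right _ _)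
    exact_mod_cast this
  refine ⟨theta D, theta_ne_zero D, ?_⟩
  rw [card_roots_theta]
  have h1 := key D (le_max_right _ _)
  have h2 := hD₂ D (le_max_left _ _)
  have h3 : (supportSum (theta D) : ℝ) ^ (1 + γ / 4) ≤ (D : ℝ) ^ (1 - (γ / 4) ^ 2) := by
    calc (supportSum (theta D) : ℝ) ^ (1 + γ / 4) ≤ ((D : ℝ) ^ (1 - γ / 4)) ^ (1 + γ / 4) :=
          Real.rpow_le_rpow (Nat.cast_nonneg _) h1 (by linarith)
      _ = (D : ℝ) ^ (1 - (γ / 4) ^ 2) := by
          rw [← Real.rpow_mul hDpos.le]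
          congr 1
          ring
  calc B * (supportSum (theta D) : ℝ) ^ (1 + γ / 4)
      ≤ |B| * (supportSum (theta D) : ℝ) ^ (1 + γ / 4) :=
        mul_le_mul_of_nonneg_right (le_abs_self B) (by positivity)
    _ ≤ |B| * (D : ℝ) ^ (1 - (γ / 4) ^ 2) := mul_le_mul_of_nonneg_left h3 (abs_nonneg B)
    _ < (|B| + 1) * (D : ℝ) ^ (1 - (γ / 4) ^ 2) :=
        mul_lt_mul_of_pos_right (by linarith) (by positivity)
    _ ≤ (D : ℝ) ^ ((γ / 4) ^ 2) * (D : ℝ) ^ (1 - (γ / 4) ^ 2) :=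
        mul_le_mul_of_nonneg_right h2 (by positivity)
    _ = D := by
        rw [← Real.rpow_add hDpos]
        have : (γ / 4) ^ 2 + (1 - (γ / 4) ^ 2) = 1 := by ring
        rw [this, Real.rpow_one]

end Pool.Agent.Results.MP_0775d3_lc.SosTau
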