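import Pool.Agent.Lib.MP_0775d3_lc.Bf.Main2

/-! Matrices of small displacement rank, values of arbitrary rational functions of small degree at
arbitrary points (Cauchy matrices), and values of products of polynomial matrices at arbitrary
points (Vandermonde matrices, all three-term recurrences) are not rigid, over `ℝ` and `ℂ`. -/

namespace Pool.Agent.Results.MP_0775d3_lc.StructuredKernels

open MP0775d3.Kron MP0775d3.Bf

theorem result (δ : ℝ) (hδ : 0 < δ) : ∃ γ : ℝ, 0 < γ ∧ ∃ n₀ : ℕ, ∀ n : ℕ, n₀ ≤ n →
    Structured2 ℝ n δ γ ∧ Structured2 ℂ n δ γ :=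
  main2 δ hδ

end Pool.Agent.Results.MP_0775d3_lc.StructuredKernels
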